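import Pool.Agent.GTO.StmtsC

/-!
# Squad GTO, row NUM: the numbers of stage 1
-/

set_option autoImplicit false

namespace Pool.Agent.GTO.H17

open Pool.Agent.GTO

theorem num : NumStmt := by
  intro n N R hn hN hR
  constructor
  · omega
  · have h1 : 115 * (N : ℤ) ≤ n := by omega
    have h2 : (n : ℤ) ≤ 115 * N + 114 := by omega
    have hn' : (120000 : ℤ) ≤ n := by exact_mod_cast hn
    have hR0 : (0 : ℤ) ≤ R := Int.natCast_nonneg R
    have h3 : 0 ≤ (R : ℤ) * (132 * N - n + 460) := mul_nonneg hR0 (by linarith)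
    have h4 : 0 ≤ ((n : ℤ) - 115 * N) * n := mul_nonneg (by linarith) (by linarith)
    have h5 : 0 ≤ ((n : ℤ) - 120000) * n := mul_nonneg (by linarith) (by linarith)
    nlinarith

end Pool.Agent.GTO.H17
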