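import Pool.Agent.GTO.StmtsB

/-!
Squad GTO, row TNG: at most six tangents through a point.
-/

set_option autoImplicit false

namespace Pool.Agent.GTO.H17

open Finset
open scoped Classical

theorem cr_par (u v w : V) (hw : w ≠ 0) (hu : cr u w = 0) (hv : cr v w = 0) : cr u v = 0 := by
  have hu0 := congrFun hu 0
  have hu1 := congrFun hu 1
  have hu2 := congrFun hu 2
  have hv0 := congrFun hv 0
  have hv1 := congrFun hv 1
  have hv2 := congrFun hv 2
  simp only [cr, Matrix.cons_val_zero, Matrix.cons_val_one, Matrix.cons_val, Pi.zero_apply]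
    at hu0 hu1 hu2 hv0 hv1 hv2
  have hk : w 0 ≠ 0 ∨ w 1 ≠ 0 ∨ w 2 ≠ 0 := by
    by_contra hcon
    push Not at hcon
    apply hw
    ext i
    fin_cases i
    · exact hcon.1
    · exact hcon.2.1
    · exact hcon.2.2
  ext i
  fin_cases i
  · simp only [cr, Fin.zero_eta, Matrix.cons_val_zero, Pi.zero_apply]
    rcases hk with h | h | h
    · apply mul_left_cancel₀ h
      linear_combination v 0 * hu0 + u 1 * hv1 + u 2 * hv2
    · apply mul_left_cancel₀ h
      linear_combination v 1 * hu0 - u 1 * hv0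
    · apply mul_left_cancel₀ h
      linear_combination v 2 * hu0 - u 2 * hv0
  · simp only [cr, Fin.mk_one, Matrix.cons_val_one, Matrix.cons_val_zero, Pi.zero_apply]
    rcases hk with h | h | h
    · apply mul_left_cancel₀ h
      linear_combination v 0 * hu1 - u 0 * hv1
    · apply mul_left_cancel₀ h
      linear_combination v 1 * hu1 + u 0 * hv0 + u 2 * hv2
    · apply mul_left_cancel₀ h
      linear_combination v 2 * hu1 - u 2 * hv1
  · simp only [cr, Fin.reduceFinMk, Matrix.cons_val, Pi.zero_apply]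
    rcases hk with h | h | h
    · apply mul_left_cancel₀ h
      linear_combination v 0 * hu2 - u 0 * hv2
    · apply mul_left_cancel₀ h
      linear_combination v 1 * hu2 - u 1 * hv2
    · apply mul_left_cancel₀ h
      linear_combination v 2 * hu2 + u 0 * hv0 + u 1 * hv1

/-- the coefficients of `v ↦ ip (grd c v) w` -/
noncomputable def ee (c : Fin 10 → ℝ) (w : V) : Fin 6 → ℝ :=
  ![3 * c 0 * w 0 + c 1 * w 1 + c 2 * w 2, 2 * c 1 * w 0 + 2 * c 3 * w 1 + c 4 * w 2,
    2 * c 2 * w 0 + c 4 * w 1 + 2 * c 5 * w 2, c 3 * w 0 + 3 * c 6 * w 1 + c 7 * w 2,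
    c 4 * w 0 + 2 * c 7 * w 1 + 2 * c 8 * w 2, c 5 * w 0 + c 8 * w 1 + 3 * c 9 * w 2]

theorem ip_ee (c : Fin 10 → ℝ) (v w : V) : ip (grd c v) w = quad (ee c w) v := by
  simp only [ip, grd, quad, ee, Matrix.cons_val_zero, Matrix.cons_val_one, Matrix.cons_val]
  ring

theorem cub_exp (c : Fin 10 → ℝ) (v w : V) (a b : ℝ) : cub c (a • v + b • w) =
    a ^ 3 * cub c v + a ^ 2 * b * ip (grd c v) w + a * b ^ 2 * ip (grd c w) v +
      b ^ 3 * cub c w := by
  simp only [ip, grd, cub, Matrix.cons_val_zero, Matrix.cons_val_one, Matrix.cons_val,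
    Pi.add_apply, Pi.smul_apply, smul_eq_mul]
  ring

theorem ip_pol (c : Fin 10 → ℝ) (v w : V) : ip (grd c (v + w)) w - ip (grd c v) w -
    ip (grd c w) w = 2 * ip (grd c w) v := by
  simp only [ip, grd, Matrix.cons_val_zero, Matrix.cons_val_one, Matrix.cons_val,
    Pi.add_apply]
  ring

theorem cub_eul (c : Fin 10 → ℝ) (w : V) : ip (grd c w) w = 3 * cub c w := by
  simp only [ip, grd, cub, Matrix.cons_val_zero, Matrix.cons_val_one, Matrix.cons_val]
  ring

theorem tng (h6 : Bz6Stmt) : TngStmt := by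
  intro c w hc hw κ s p hz hne
  by_contra hcon
  push Not at hcon
  by_cases he : ee c w = 0
  · have h0 : ∀ v, ip (grd c v) w = 0 := by
      intro v
      rw [ip_ee, he]
      simp [quad]
    have h1 : ∀ v, ip (grd c w) v = 0 := by
      intro v
      have := ip_pol c v w
      rw [h0, h0, h0] at this
      linarith
    have h2 : cub c w = 0 := by
      have := cub_eul c w
      rw [h0] at this
      linarith
    have h3 : ∀ i ∈ s, cr (p i) w = 0 := by
      intro i hi
      by_contra hcr
      obtain ⟨a, b, hab⟩ := hc (p i) w hcr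
      apply hab
      rw [cub_exp, h0, h1, h2, (hz i hi).1]
      ring
    obtain ⟨i, hi, j, hj, hij⟩ := Finset.one_lt_card.mp (by omega : 1 < s.card)
    exact hne i hi j hj hij (cr_par _ _ _ hw (h3 i hi) (h3 j hj))
  · obtain ⟨t, hts, htc⟩ := Finset.exists_subset_card_eq (by omega : 7 ≤ s.card)
    have f := (t.equivFinOfCardEq htc).symm
    obtain ⟨i, hi⟩ := h6 c (ee c w) (fun i => p (f i).1) hc he (by
      intro i j hij
      apply hne _ (hts (f i).2) _ (hts (f j).2)
      intro h
      exact hij (f.injective (Subtype.ext h)))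
    obtain ⟨z1, z2⟩ := hz _ (hts (f i).2)
    rcases hi with hi | hi
    · exact hi z1
    · apply hi
      rw [← ip_ee]
      exact z2

end Pool.Agent.GTO.H17
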